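import Pool.Agent.U587.FD.Incl

/-!
# Vojta's inequality with proximity and discriminant for the algebraic points of Fermat coverings
# above the points of degree `r` of projective space

Let `k` be a number field, `a_0, …, a_{q-1}` linear forms in `m + 1` variables over `k`, any `m + 1`
of them linearly independent, `q ≥ m + 1`, and `e ≥ 1`. The points `(y_0 : … : y_{q-1})` such that
`(y_0 ^ e : … : y_{q-1} ^ e) = (a_0(x) : … : a_{q-1}(x))` for some `x` in `ℙ^m` form a smooth complete
intersection `X_e` of dimension `m` of `q - m - 1` hypersurfaces of degree `e` in `ℙ^(q-1)`; for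
`q = m + 2` it is a diagonal hypersurface. Let `D` be the divisor `y_0 ⋯ y_{q-1} = 0` on `X_e`; it has
normal crossings, `h_K(P) = (e (q - m - 1) - q) h(P)`, `e h(P) = h(x) + O(1)`.

Let `r ≥ 2` and `n = r [k : ℚ]`. We consider ALL points `P` of ALL `X_e` above the points `x` of `ℙ^m`
which have degree `r` over `k`; `P` is given over any number field `L ⊇ k(x)`, of unbounded degree.
For every `δ > 0` there are at least `c₁ B ^ (n (m + 1) - δ)` points `x` of degree `r` and height at
most `log B`. We prove that, for `0 ≤ θ < q`, for all but `O(B ^ (n α θ + δ))` of them,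
`α = alpha n`, all points `P` above `x`, for all `e` and all finite sets `T` of primes of `L`, satisfy

  `(θ e - q) h(P) + ∑_{w ∈ T ∪ L_∞} λ_{D,w}(P) ≤ d(L) + ∑_{w ∈ T} log N(w) / [L : ℚ] + c`.

For `θ = q - m - 1 - ε` this is Vojta's inequality
`h_K(P) + ∑ λ_D(P, ν) ≤ ε h_A(P) + d_k(P) + O(1)` for the divisor `D` on `X_e`, with `h_A = e h`; it holds
for almost all `x` of degree `r` if `α θ < m + 1`, for example for the diagonal hypersurfaces and
`k = ℚ` for all `r ≤ 2 m + 1`. All heights, local heights and discriminants are the absolute ones.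

The case of the `k`-rational points `x` is the starting result `FermatProximity`; there `T` consists
of the primes above a fixed finite set.
-/

set_option autoImplicit false

namespace Pool.Agent.Results.MP_71c16a_nt.FermatDegreeR

open NumberField IsDedekindDomain
open scoped LinearAlgebra.Projectivization

/-- The absolute logarithmic height of the point with homogeneous coordinates `y`. -/
noncomputable def height {L : Type} [Field L] [NumberField L] {q : ℕ} (y : Fin q → L) : ℝ :=
  Height.logHeight y / Module.finrank ℚ L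

/-- The absolute logarithmic discriminant `log |disc L| / [L : ℚ]`. -/
noncomputable def logDisc (L : Type) [Field L] [NumberField L] : ℝ :=
  Real.log |(NumberField.discr L : ℝ)| / Module.finrank ℚ L

/-- `∑_{w ∈ T} log N(w) / [L : ℚ]`. -/
noncomputable def logNorms {L : Type} [Field L] [NumberField L]
    (T : Finset (HeightOneSpectrum (𝓞 L))) : ℝ :=
  (∑ w ∈ T, Real.log (Ideal.absNorm w.asIdeal)) / Module.finrank ℚ L

/-- The local Weil function `∑ i, log (max_j |y_j| / |y_i|)` of the divisor `D`, for an absolute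
value. -/
noncomputable def weil {L : Type} [Field L] {q : ℕ} (f : AbsoluteValue L ℝ) (y : Fin q → L) : ℝ :=
  ∑ i, Real.log ((⨆ j, f (y j)) / f (y i))

/-- The proximity function of `D`: the sum of the local Weil functions over the infinite places `w`
of `L` (with the factor `[L_w : ℝ]`) and over the primes `w ∈ T` of `L` (with the absolute value
`N(w) ^ (- ord_w)`), divided by `[L : ℚ]`. -/
noncomputable def proximity {L : Type} [Field L] [NumberField L] {q : ℕ}
    (T : Finset (HeightOneSpectrum (𝓞 L))) (y : Fin q → L) : ℝ :=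
  (∑ w : InfinitePlace L, (w.mult : ℝ) * weil w.1 y + ∑ w ∈ T, weil (FinitePlace.mk w).1 y) /
    Module.finrank ℚ L

/-- The value of the linear form with coefficients `b` in `k` at the point `x` over `K ⊇ k`. -/
noncomputable def value {k K : IntermediateField ℚ ℂ} (h : k ≤ K) {m : ℕ} (b : Fin (m + 1) → k)
    (x : Fin (m + 1) → K) : K := ∑ j, IntermediateField.inclusion h (b j) * x j

/-- Some point `P = (y_0 : … : y_{q-1})` of some `X_e`, over some number field `L` containing `K`, above
the point with the values `v` of the forms (that is, `(y_i ^ e) = t v` with `t ≠ 0`), violates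
`(θ e - q) h(P) + ∑_{w ∈ T ∪ L_∞} λ_{D,w}(P) ≤ d(L) + ∑_{w ∈ T} log N(w) / [L : ℚ] + c` for some finite
set `T` of primes of `L`. -/
def Violates {K : Type} [Field K] {q : ℕ} (θ c : ℝ) (v : Fin q → K) : Prop :=
  ∃ (e : ℕ) (L : Type) (_ : Field L) (_ : NumberField L) (_ : Algebra K L) (y : Fin q → L) (t : L)
    (T : Finset (HeightOneSpectrum (𝓞 L))),
    1 ≤ e ∧ t ≠ 0 ∧ (∀ i, y i ^ e = t * algebraMap K L (v i)) ∧
      logDisc L + logNorms T + c < (θ * e - q) * height y + proximity T y

/-- The field of definition `k(P)` of the point `P`: it is generated over `k` by the quotients of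
the coordinates of `P`. -/
noncomputable def fieldOf (k : IntermediateField ℚ ℂ) {m : ℕ} (P : ℙ ℂ (Fin (m + 1) → ℂ)) :
    IntermediateField ℚ ℂ :=
  k ⊔ IntermediateField.adjoin ℚ {z : ℂ | ∃ i j, P.rep j ≠ 0 ∧ z = P.rep i / P.rep j}

/-- The points `P` of `ℙ^m` whose field of definition `K = k(P)` has degree `r` over `k`, with
homogeneous coordinates `x` in `K`, of absolute height at most `log B`, off the hyperplanes. -/
def Points (k : IntermediateField ℚ ℂ) {m q : ℕ} (a : Fin q → Fin (m + 1) → k) (r : ℕ) (B : ℝ) :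
    Set (ℙ ℂ (Fin (m + 1) → ℂ)) :=
  {P | ∃ (K : IntermediateField ℚ ℂ) (_ : NumberField K) (h : k ≤ K) (x : Fin (m + 1) → K) (b : ℂ),
    fieldOf k P = K ∧ Module.finrank ℚ K = r * Module.finrank ℚ k ∧
    b ≠ 0 ∧ (∀ j, P.rep j = b * (x j : ℂ)) ∧ (∀ i, value h (a i) x ≠ 0) ∧ height x ≤ Real.log B}

/-- The points `P` of `Points k a r B` above which some point of some `X_e` violates the
inequality. -/
def Exceptions (k : IntermediateField ℚ ℂ) {m q : ℕ} (a : Fin q → Fin (m + 1) → k) (r : ℕ)
    (θ c B : ℝ) : Set (ℙ ℂ (Fin (m + 1) → ℂ)) :=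
  {P | ∃ (K : IntermediateField ℚ ℂ) (_ : NumberField K) (h : k ≤ K) (x : Fin (m + 1) → K) (b : ℂ),
    fieldOf k P = K ∧ Module.finrank ℚ K = r * Module.finrank ℚ k ∧
    b ≠ 0 ∧ (∀ j, P.rep j = b * (x j : ℂ)) ∧ (∀ i, value h (a i) x ≠ 0) ∧
    height x ≤ Real.log B ∧ Violates θ c fun i => value h (a i) x}

/-- There are `O(Δ ^ (alpha n c η))` number fields of degree `n` and discriminant at most `Δ`; here
`alpha n c η` is the smaller of `(n - 1) (n + 2) / (4 ⌈n / 2⌉)` and `c n ^ η`. -/
noncomputable def alpha (n : ℕ) (c η : ℝ) : ℝ :=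
  min (((n : ℝ) - 1) * (n + 2) / (4 * ((n + 1) / 2 : ℕ))) (c * (n : ℝ) ^ η)

/-! ### Comparison with the definitions of the starting file -/

section

open Pool.Agent.Results.MP_44a246_nt

variable {k : IntermediateField ℚ ℂ} {m q : ℕ}

lemma rep_smul {K : IntermediateField ℚ ℂ} {x : Fin (m + 1) → K} (hx : x ≠ 0) :
    ∃ s : K, s ≠ 0 ∧ (Projectivization.mk K x hx).rep = s • x := by
  obtain ⟨s, hs⟩ := Projectivization.exists_smul_eq_mk_rep K x hx
  exact ⟨(s : K), s.ne_zero, hs.symm⟩

lemma value_smul {K : IntermediateField ℚ ℂ} (h : k ≤ K) (b : Fin (m + 1) → k) (s : K)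
    (x : Fin (m + 1) → K) : value h b (s • x) = s * value h b x := by
  unfold value
  rw [Finset.mul_sum]
  refine Finset.sum_congr rfl fun j _ => ?_
  rw [Pi.smul_apply, smul_eq_mul]
  ring

lemma height_eq {K : IntermediateField ℚ ℂ} [NumberField K] (Q : ℙ K (Fin (m + 1) → K)) :
    BoundedDegreeHyperplanes.height Q = height Q.rep := by
  unfold BoundedDegreeHyperplanes.height height
  rw [Height.logHeight_eq_log_mulHeight]
  congr 2
  conv_lhs => rw [← Q.mk_rep]
  exact Projectivization.mulHeight_mk _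

lemma ne_zero_of {K : IntermediateField ℚ ℂ} {x : Fin (m + 1) → K} {P : ℙ ℂ (Fin (m + 1) → ℂ)}
    {b : ℂ} (h : ∀ j, P.rep j = b * (x j : ℂ)) : x ≠ 0 := by
  rintro rfl
  apply P.rep_nonzero
  funext j
  rw [h j]
  simp

lemma toC_eq {K : IntermediateField ℚ ℂ} {x : Fin (m + 1) → K} (hx : x ≠ 0)
    {P : ℙ ℂ (Fin (m + 1) → ℂ)} {b : ℂ} (hb : b ≠ 0) (h : ∀ j, P.rep j = b * (x j : ℂ)) :
    BoundedDegreeHyperplanes.toC (Projectivization.mk K x hx) = P := by
  obtain ⟨s, hs, hr⟩ := rep_smul hx
  have hsC : (s : ℂ) ≠ 0 := by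
    intro h0
    exact hs (by exact_mod_cast h0)
  conv_rhs => rw [← P.mk_rep]
  unfold BoundedDegreeHyperplanes.toC
  rw [Projectivization.mk_eq_mk_iff']
  refine ⟨(s : ℂ) / b, ?_⟩
  funext j
  rw [Pi.smul_apply, smul_eq_mul, h j, hr, Pi.smul_apply, smul_eq_mul]
  push_cast
  field_simp

lemma height_smul {K : IntermediateField ℚ ℂ} [NumberField K] {s : K} (hs : s ≠ 0)
    (x : Fin (m + 1) → K) : height (s • x) = height x := by
  unfold height
  rw [Height.logHeight_smul_eq_logHeight _ hs]

end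

/-- **Vojta's inequality with proximity and discriminant above the points of degree `r`.** Let
`η > 0`. There is `c₀ ≥ 1` such that the following holds for all number fields `k ⊆ ℂ`, all
`m ≥ 1`, all `q ≥ m + 1` hyperplanes in general position in `ℙ^m` over `k`, all `r ≥ 2`; let
`n = r [k : ℚ]`. For all `0 ≤ θ < q`, `c` and `δ > 0` there is `C` such that for all `B ≥ 1` all but
`C B ^ (n α θ + δ)`, `α = alpha n c₀ η`, of the points `x` of `ℙ^m` of degree `r` over `k` and of height
at most `log B`, off the hyperplanes, have the following property: ALL points `P` of ALL Fermat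
coverings `X_e`, `e ≥ 1`, above `x`, over ALL number fields `L ⊇ k(x)`, satisfy
`(θ e - q) h(P) + ∑_{w ∈ T ∪ L_∞} λ_{D,w}(P) ≤ d(L) + ∑_{w ∈ T} log N(w) / [L : ℚ] + c` for ALL finite sets
`T` of primes of `L`. And for every `δ > 0` there are `c₁ > 0` and `B₀` such that for `B ≥ B₀` there are
at least `c₁ B ^ (n (m + 1) - δ)` points `x` of degree `r` and height at most `log B`. -/
theorem result : ∀ η : ℝ, 0 < η → ∃ c₀ : ℝ, 1 ≤ c₀ ∧
    ∀ (k : IntermediateField ℚ ℂ) [NumberField k] (m q r n : ℕ), 1 ≤ m → m + 1 ≤ q → 2 ≤ r →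
      n = r * Module.finrank ℚ k → ∀ a : Fin q → Fin (m + 1) → k,
      (∀ I : Finset (Fin q), I.card = m + 1 → LinearIndependent k (fun i : I => a i)) →
      (∀ θ c δ : ℝ, 0 ≤ θ → θ < q → 0 < δ → ∃ C : ℝ, ∀ B : ℝ, 1 ≤ B →
        (Exceptions k a r θ c B).Finite ∧ ((Exceptions k a r θ c B).ncard : ℝ) ≤
          C * B ^ ((n : ℝ) * (alpha n c₀ η * θ) + δ)) ∧
      (∀ δ : ℝ, 0 < δ → ∃ c₁ B₀ : ℝ, 0 < c₁ ∧ ∀ B : ℝ, B₀ ≤ B →
        ∃ F : Finset (ℙ ℂ (Fin (m + 1) → ℂ)), (F : Set (ℙ ℂ (Fin (m + 1) → ℂ))) ⊆ Points k a r B ∧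
          c₁ * B ^ ((n : ℝ) * (m + 1) - δ) ≤ (F.card : ℝ)) := by
  intro η hη
  obtain ⟨c₀, hc₀, H⟩ :=
    Pool.Agent.Results.MP_44a246_nt.BoundedDegreeHyperplanes.result η hη
  refine ⟨c₀, hc₀, ?_⟩
  intro k _ m q r n hm hq hr hn a ha
  obtain ⟨H1, H2⟩ := H k m q r n hm hq hr hn a ha
  refine ⟨?_, ?_⟩
  · intro θ c δ hθ hθq hδ
    obtain ⟨c', hc'⟩ := Pool.Agent.U587.FD.core k hq a ha θ c hθ
    obtain ⟨C, hC⟩ := H1 θ c' δ hθ hθq hδ
    refine ⟨C, fun B hB => ?_⟩
    obtain ⟨h1, h2⟩ := hC B hB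
    have hsub : Exceptions k a r θ c B ⊆
        Pool.Agent.Results.MP_44a246_nt.BoundedDegreeHyperplanes.Exceptions k a r θ c' B := by
      rintro P ⟨K, hK, h, x, b, hf, hdeg, hb, hrep, hval, hht, hv⟩
      have hx : x ≠ 0 := ne_zero_of hrep
      obtain ⟨s, hs, hr⟩ := rep_smul hx
      set Q : ℙ K (Fin (m + 1) → K) := Projectivization.mk K x hx with hQ
      have hvalQ : ∀ i, Pool.Agent.Results.MP_44a246_nt.BoundedDegreeHyperplanes.value
          (Pool.Agent.Results.MP_44a246_nt.BoundedDegreeHyperplanes.liftTo h a i) Q =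
          s * value h (a i) x := by
        intro i
        rw [← value_smul, ← hr]
        rfl
      refine ⟨K, hK, h, Q, hf, hdeg, toC_eq hx hb hrep, ?_, ?_, ?_⟩
      · intro i
        rw [hvalQ i]
        exact mul_ne_zero hs (hval i)
      · rw [height_eq, hr, height_smul hs]
        exact hht
      · refine hc' K hK h Q (fun i => ?_) ?_
        · rw [hvalQ i]
          exact mul_ne_zero hs (hval i)
        · have hv' : Pool.Agent.U587.FD.Viol θ c (fun i => value h (a i) x) := hv
          have h3 := hv'.smul hs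
          have h4 : (fun i => Pool.Agent.Results.MP_44a246_nt.BoundedDegreeHyperplanes.value
            (Pool.Agent.Results.MP_44a246_nt.BoundedDegreeHyperplanes.liftTo h a i) Q) =
              fun i => s * value h (a i) x := funext hvalQ
          rw [h4]
          exact h3
    refine ⟨h1.subset hsub, le_trans ?_ h2⟩
    exact_mod_cast Set.ncard_le_ncard hsub h1
  · intro δ hδ
    obtain ⟨c₁, B₀, hc₁, h⟩ := H2 δ hδ
    refine ⟨c₁, B₀, hc₁, fun B hB => ?_⟩
    obtain ⟨F, hF, hcard⟩ := h B hB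
    refine ⟨F, fun P hP => ?_, hcard⟩
    obtain ⟨K, hK, h, Q, hf, hdeg, hQ, hval, hht⟩ := hF hP
    obtain ⟨b, hb, hrep⟩ := Pool.Agent.Results.MP_44a246_nt.BoundedDegreeHyperplanes.rep_toC Q
    refine ⟨K, hK, h, Q.rep, b, hf, hdeg, hb, ?_, hval, ?_⟩
    · rw [← hQ]
      exact hrep
    · rw [← height_eq]
      exact hht

end Pool.Agent.Results.MP_71c16a_nt.FermatDegreeR
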