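import Mathlib
import Pool.Agent.U937.LinG

set_option autoImplicit false

/-!
# Vojta's inequality for the points of bounded degree on the projective line: exceptional linear
# systems

`k` is a number field, `X = ℙ¹` over `k`, `D` is a reduced divisor of degree `q` on `X` which is
defined over `k`; its points become rational over a number field `K` containing `k`; `S` is any finite
set of places of `k` which contains the archimedean ones. The points `x` have degree `d ≤ r` over `k`.
As the canonical class of `ℙ¹` is `-2` times the class of a point, Vojta's inequality is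
`- 2 h(x) + ∑_{ν ∈ S} λ_D(x, ν) ≤ ε h(x) + d_k(x) + C`. A linear system of degree `d` over `k` is a
vector space `Λ` of binary forms of degree `d` over `k`.

We prove the inequality with `max (d_k(x)) ((2 d - 2 - t d) h(x))` in place of `d_k(x)` for all points
of degree `d ≤ r` which do not belong to finitely many linear systems, special of level `t d`. So
Vojta's inequality holds for the points with `d_k(x) ≥ (2 d - 2 - t d) h(x)` outside these linear
systems. (For almost all points of degree `d`, ordered by height, `d_k(x)` is near the largest possible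
value, `(2 d - 2) h(x)`.) If the Galois group is transitive on the sets of `i` points of `D` for all
`i ≤ r`, then there is no exceptional linear system for `t d = d - 1`.
-/

namespace Pool.Agent.Results.MP_71c16a_nt.LinearSystems

open NumberField IsDedekindDomain MvPolynomial

/-- The field `L` is `k(x)`: it is generated over `k` by the quotients of the coordinates of `x`. -/
def IsResidueField (k : Type) {L : Type} [Field k] [Field L] [Algebra k L]
    (x : Fin 2 → L) : Prop :=
  IntermediateField.adjoin k (Set.range fun p : Fin 2 × Fin 2 => x p.1 / x p.2) = ⊤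

/-- The logarithmic height relative to `k` of a point over `L`. -/
noncomputable def height (k : Type) {L : Type} [Field k] [Field L] [NumberField L] [Algebra k L]
    (x : Fin 2 → L) : ℝ := Height.logHeight x / Module.finrank k L

/-- The logarithmic discriminant `log |disc L| / [L : k] - log |disc k|`. -/
noncomputable def logDisc (k L : Type) [Field k] [NumberField k] [Field L] [NumberField L]
    [Algebra k L] : ℝ :=
  Real.log |(discr L : ℝ)| / Module.finrank k L - Real.log |(discr k : ℝ)|

/-- The primes of `L` above the primes in `S`. -/
def primesAbove {k : Type} [Field k] [NumberField k] (S : Finset (HeightOneSpectrum (𝓞 k)))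
    (L : Type) [Field L] [NumberField L] [Algebra k L] : Set (HeightOneSpectrum (𝓞 L)) :=
  {w | ∃ v ∈ S, w.asIdeal.LiesOver v.asIdeal}

/-- The local height `log (max_j |x_j| ^ q / |F(x)|)` of the divisor `F = 0`, `F` a form of degree
`q`, for an absolute value of `L`. -/
noncomputable def weil {k L : Type} [Field k] [Field L] [Algebra k L] (q : ℕ)
    (f : AbsoluteValue L ℝ) (F : MvPolynomial (Fin 2) k) (x : Fin 2 → L) : ℝ :=
  Real.log ((⨆ j, f (x j)) ^ q / f (aeval x F))

/-- The proximity function `∑_{ν ∈ S} λ_D(x, ν)` relative to `k`, where `S` consists of the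
archimedean places of `k` and the primes in `S`: the sum of the local heights over the infinite places
`w` of `L` (with the factor `[L_w : ℝ]`) and over the primes of `L` above the primes in `S` (with the
absolute value `N(w) ^ (- ord_w)`), divided by `[L : k]`. -/
noncomputable def proximity {k L : Type} [Field k] [NumberField k] [Field L] [NumberField L]
    [Algebra k L] (S : Finset (HeightOneSpectrum (𝓞 k))) (q : ℕ)
    (F : MvPolynomial (Fin 2) k) (x : Fin 2 → L) : ℝ :=
  (∑ w : InfinitePlace L, (w.mult : ℝ) * weil q w.1 F x +
    ∑ᶠ w ∈ primesAbove S L, weil q (FinitePlace.mk w).1 F x) / Module.finrank k L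

/-- The inequality `- 2 h(x) + ∑_{ν ∈ S} λ_D(x, ν) ≤ ε h(x) + max (d_k(x)) (δ h(x)) + C` on the
projective line for the point `x` over the field `L`, the divisor `F = 0` of degree `q` and the finite
primes in `S` together with the archimedean places. For the points with `d_k(x) ≥ δ h(x)` it is
Vojta's inequality. -/
def VojtaInequality {k L : Type} [Field k] [NumberField k] [Field L] [NumberField L]
    [Algebra k L] (S : Finset (HeightOneSpectrum (𝓞 k))) (q : ℕ)
    (F : MvPolynomial (Fin 2) k) (δ ε C : ℝ) (x : Fin 2 → L) : Prop :=
  -2 * height k x + proximity S q F x ≤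
    ε * height k x + max (logDisc k L) (δ * height k x) + C

/-- The value at `x` of the binary form `∑_j c_j X_0^j X_1^(r - j)` with the coefficients `c`. -/
def value {A Ω : Type} [Field A] [Field Ω] [Algebra A Ω] {r : ℕ} (c : Fin (r + 1) → A)
    (x : Fin 2 → Ω) : Ω :=
  ∑ j : Fin (r + 1), algebraMap A Ω (c j) * (x 0 ^ (j : ℕ) * x 1 ^ (r - (j : ℕ)))

/-- The zero of the linear form `h 0 X_0 + h 1 X_1`. -/
def zeroOf {K : Type} [Field K] (h : Fin 2 → K) : Fin 2 → K := ![h 1, -h 0]

/-- The members over `K` of the linear system `Λ` over `k`: the linear combinations with coefficients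
in `K` of the forms in `Λ`. -/
def membersOver {k : Type} (K : Type) [Field k] [Field K] [Algebra k K] {r : ℕ}
    (Λ : Submodule k (Fin (r + 1) → k)) : Submodule K (Fin (r + 1) → K) :=
  Submodule.span K ((fun (c : Fin (r + 1) → k) (j : Fin (r + 1)) => algebraMap k K (c j)) ''
    (Λ : Set (Fin (r + 1) → k)))

/-- The linear system `Λ` of degree `r` is special of level `t` (with respect to the zeros of the linear
forms `H s`): `dim Λ ≥ 2` and some non-zero member over `K` vanishes at `z` of these points, where
`dim Λ + 2 (r - z) < t + 2` (dimension as a vector space). -/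
def IsSpecial {k K : Type} [Field k] [Field K] [Algebra k K] {q r : ℕ} (H : Fin q → Fin 2 → K)
    (t : ℝ) (Λ : Submodule k (Fin (r + 1) → k)) : Prop :=
  2 ≤ Module.finrank k Λ ∧ ∃ G ∈ membersOver K Λ, G ≠ 0 ∧ ∃ A : Finset (Fin q),
    (∀ s ∈ A, value G (zeroOf (H s)) = 0) ∧ (Module.finrank k Λ : ℝ) + 2 * (r - A.card) < t + 2

/-- The point `x` belongs to a non-zero member of the linear system `Λ` (for a point of degree `r` and a
linear system of degree `r` over `k`: the divisor of the conjugates of `x` is a member of `Λ`). -/
def IsCovered {k L : Type} [Field k] [Field L] [Algebra k L] {r : ℕ}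
    (Λ : Submodule k (Fin (r + 1) → k)) (x : Fin 2 → L) : Prop :=
  ∃ c ∈ Λ, c ≠ 0 ∧ value c x = 0

theorem value_eq {A Ω : Type} [Field A] [Field Ω] [Algebra A Ω] {r : ℕ} (c : Fin (r + 1) → A)
    (x : Fin 2 → Ω) :
    value c x = Pool.Agent.N750.bev r (fun j => algebraMap A Ω (c j)) (x 0) (x 1) := rfl

theorem special_of {k K : Type} [Field k] [Field K] [Algebra k K] {q r : ℕ}
    (H : Fin q → Fin 2 → K) (t : ℝ) (Λ : Submodule k (Fin (r + 1) → k))
    (h : Pool.Agent.U937.Lin.Sq H t Λ) : IsSpecial H t Λ := h

/-- The automorphisms of `K` over `k` act transitively on the sets of zeros of given cardinality at most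
`r`: for two sets of zeros of the linear forms `H s` with the same number of elements, at most `r`, some
automorphism maps the first one to the second one (two linear forms over `K` have the same zero when
they are proportional). -/
def IsSetTransitive (k : Type) {K : Type} [Field k] [Field K] [Algebra k K] {q : ℕ} (r : ℕ)
    (H : Fin q → Fin 2 → K) : Prop :=
  ∀ A B : Finset (Fin q), A.card = B.card → A.card ≤ r → ∃ σ : K ≃ₐ[k] K, ∀ s ∈ A, ∃ s' ∈ B,
    σ (H s 0) * H s' 1 = σ (H s 1) * H s' 0

/-- **Vojta's inequality for the points of degree at most `r` on the projective line outside finitely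
many linear systems.** Let `F` be a binary form over the number field `k` which over the number field
`K` is the product of `q` pairwise non-proportional non-zero linear forms `H s`. For all real numbers
`t d`, where `t d ≤ d` if `q < d ≤ r`, every finite set `S` of primes of `k` (the archimedean places are
always added) and every `ε > 0` there are finite sets `E d` of linear systems of degree `d` over `k`,
all of them special of level `t d`, and a constant `C` with the following property: every point `x` of
degree `d ≤ r` over `k` outside `F = 0` either belongs to one of the linear systems in `E d` or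
satisfies `- 2 h(x) + ∑_{ν ∈ S} λ_D(x, ν) ≤ ε h(x) + max (d_k(x)) ((2 d - 2 - t d) h(x)) + C`. If the
automorphisms of `K` over `k` act transitively on the sets of at most `r` zeros of `F`, then `E d` is
empty for all `d ≤ r` with `t d ≤ d - 1`; so in this case Vojta's inequality holds for all points of
degree at most `r` outside `D` with `d_k(x) ≥ (deg x - 1) h(x)`. -/
theorem result (k K : Type) [Field k] [NumberField k] [Field K] [NumberField K] [Algebra k K]
    (q r : ℕ) (F : MvPolynomial (Fin 2) k) (H : Fin q → Fin 2 → K)
    (hF : F.map (algebraMap k K) = ∏ i, ∑ j, C (H i j) * X j)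
    (hne : ∀ i, H i ≠ 0) (hD : ∀ i j, i ≠ j → H i 0 * H j 1 ≠ H i 1 * H j 0)
    (t : ℕ → ℝ) (ht : ∀ d ≤ r, d ≤ q ∨ t d ≤ d)
    (S : Finset (HeightOneSpectrum (𝓞 k))) (ε : ℝ) (hε : 0 < ε) :
    ∃ (E : (d : ℕ) → Finset (Submodule k (Fin (d + 1) → k))) (C : ℝ),
      (∀ d, ∀ Λ ∈ E d, IsSpecial H (t d) Λ) ∧
      (IsSetTransitive k r H → ∀ d ≤ r, t d ≤ d - 1 → E d = ∅) ∧
      ∀ (L : Type) [Field L] [NumberField L] [Algebra k L] (x : Fin 2 → L),
        Module.finrank k L ≤ r → IsResidueField k x → x ≠ 0 → aeval x F ≠ 0 →
        (∃ Λ ∈ E (Module.finrank k L), IsCovered Λ x) ∨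
        VojtaInequality S q F (2 * Module.finrank k L - 2 - t (Module.finrank k L)) ε C x := by
  classical
  obtain ⟨E, C, hC, hE, hT, hmain⟩ := Pool.Agent.U937.Lin.main3 r F H hF hne hD S t ht ε hε
  refine ⟨E, C, fun d Λ hΛ => special_of H (t d) Λ (hE d Λ hΛ), hT, ?_⟩
  intro L _ _ _ x hd _ hx0 hFx
  have hd0 : (0 : ℝ) < Module.finrank k L := by exact_mod_cast Module.finrank_pos
  have hd1 : (1 : ℝ) ≤ Module.finrank k L := by
    exact_mod_cast (show 1 ≤ Module.finrank k L from Module.finrank_pos)
  have hht2 : Height.logHeight x = Module.finrank k L * height k x := by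
    unfold height
    field_simp
  have hld : Real.log |(discr L : ℝ)| - Module.finrank k L * Real.log |(discr k : ℝ)| =
      Module.finrank k L * logDisc k L := by
    unfold logDisc
    field_simp
  have h1 := hmain L hd x hx0 hFx
  rcases h1 with h1 | h1
  · exact Or.inl h1
  right
  have hweil : ∀ f : AbsoluteValue L ℝ, q * Real.log (Pool.Agent.W180.OP.nrm f x) -
      Real.log (f (aeval x F)) = weil q f F x := by
    intro f
    unfold weil
    have e1 : (⨆ j, f (x j)) = Pool.Agent.W180.OP.nrm f x := rfl
    rw [e1, Real.log_div (pow_pos (Pool.Agent.W180.OP.nrm_pos f hx0) _).ne'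
      (f.pos_iff.2 hFx).ne', Real.log_pow]
  have hw1 : ∀ w : InfinitePlace L, q * Real.log (Pool.Agent.W180.OP.nrm w.1 x) -
      Real.log (w (aeval x F)) = weil q w.1 F x := fun w => hweil w.1
  have hw2 : ∀ w : HeightOneSpectrum (𝓞 L),
      q * Real.log (Pool.Agent.W180.OP.nrm (FinitePlace.mk w).1 x) -
      Real.log (FinitePlace.mk w (aeval x F)) = weil q (FinitePlace.mk w).1 F x :=
    fun w => hweil (FinitePlace.mk w).1
  simp only [hw1, hw2] at h1
  have h2 : Module.finrank k L * proximity S q F x =
      ∑ w : InfinitePlace L, (w.mult : ℝ) * weil q w.1 F x +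
        ∑ᶠ w ∈ primesAbove S L, weil q (FinitePlace.mk w).1 F x := by
    unfold proximity
    field_simp
  have hmax : max (Real.log |(discr L : ℝ)| - Module.finrank k L * Real.log |(discr k : ℝ)|)
      ((2 * Module.finrank k L - 2 - t (Module.finrank k L)) * Height.logHeight x) =
      Module.finrank k L * max (logDisc k L)
        ((2 * Module.finrank k L - 2 - t (Module.finrank k L)) * height k x) := by
    rw [hld, hht2, mul_max_of_nonneg _ _ hd0.le]
    congr 1
    ring
  have h3 : Module.finrank k L * proximity S q F x ≤
      (2 + ε) * (Module.finrank k L * height k x) + Module.finrank k L * max (logDisc k L)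
        ((2 * Module.finrank k L - 2 - t (Module.finrank k L)) * height k x) + C := by
    rw [h2, ← hmax, ← hht2]
    exact h1
  have h4 : Module.finrank k L * proximity S q F x ≤
      Module.finrank k L * ((2 + ε) * height k x + max (logDisc k L)
        ((2 * Module.finrank k L - 2 - t (Module.finrank k L)) * height k x) + C) := by
    refine h3.trans ?_
    have e1 : C ≤ Module.finrank k L * C := le_mul_of_one_le_left hC hd1
    have e2 : Module.finrank k L * ((2 + ε) * height k x + max (logDisc k L)
        ((2 * Module.finrank k L - 2 - t (Module.finrank k L)) * height k x) + C) =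
      (2 + ε) * (Module.finrank k L * height k x) + Module.finrank k L * max (logDisc k L)
        ((2 * Module.finrank k L - 2 - t (Module.finrank k L)) * height k x) +
        Module.finrank k L * C := by ring
    rw [e2]
    linarith
  have h5 := le_of_mul_le_mul_left h4 hd0
  unfold VojtaInequality
  linarith

end Pool.Agent.Results.MP_71c16a_nt.LinearSystems
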