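import Pool.Agent.U155.MV.G
import Pool.Agent.Results.MP_651af7_nt.PointsOfAnyDegree

/-!
# Vojta's inequality for all divisors of the line at the good algebraic approximations of almost every number

Let `D` be a reduced effective divisor of degree `q ≥ 1` on the projective line over `ℚ` (its points need
not be rational; it is given by a squarefree integral polynomial `G` and, for `q = deg G + 1`, the point at
infinity), `S` a finite set of primes. For algebraic numbers `x` of degree `r ≥ 2`, with Mahler measure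
`M(x) = exp (r h(x))`, Vojta's inequality `∑_{v ∈ S ∪ {∞}} λ_{D,v}(x) + h_K(x) ≤ d(x) + ε h(x) + c`,
`h_K = -2 h`, is an open problem. We prove it for ALL `D`, `S`, `ε > 0` and `c`, with finitely many
exceptions, for the numbers `x` of any fixed degree `r` which are near a typical point: for almost every
real number `ξ` and every `w > r (r - 1) / (r + 1)` for the `x` of degree `r` with `|x - ξ| ≤ M(x)^(-w)`.
Almost every real `ξ` has infinitely many such `x` of degree `r` for every `w < r + 1` (Sprindzhuk). The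
same holds for almost all complex `ξ` (with `w > r (r - 1) / (2 (r + 1))`), for almost all points of `ℝ^m`
and any `m` functions of `x`, for example `m` conjugates of `x`, (with `w > r (r - 1) / (m (r + 1))`); for
arbitrary `w > 0` and fixed `D`, `S`, `ε`, `c` the exceptional points of any metric space form a set of
Hausdorff dimension at most `r (2 r - 2 - min ε 2) / (2 (r + 1) w)`.

Proof. The starting theorem `PointsOfAnyDegree` bounds the number of the exceptions of height at most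
`log B` by `C B ^ (r² (2 r - 2 - min ε 2) / (2 (r + 1)) + δ)`; the neighbourhoods of radius `M(x)^(-w)` of
so few points are too small to meet almost all points infinitely often.
-/

set_option autoImplicit false

namespace Pool.Agent.Results.MP_71c16a_nt.MetricDivisors

open Polynomial MeasureTheory
open Pool.Agent.Results.MP_651af7_nt.PointsOfAnyDegree (height lambdaInf lambdaP logDisc)

/-- `x` is an algebraic number of degree `r`, a root of the irreducible integral polynomial `f` -/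
def IsRoot (r : ℕ) (x : ℂ) (f : ℤ[X]) : Prop :=
  Irreducible f ∧ f.natDegree = r ∧ aeval x f = 0

/-- the Mahler measure `M(x) = exp (r h(x))` of the roots `x` of `f` -/
noncomputable def mahler (f : ℤ[X]) : ℝ := (f.map (Int.castRingHom ℂ)).mahlerMeasure

/-- `G` defines a reduced divisor of degree `q ≥ 1` on the line (for `q = deg G + 1` it contains the point
at infinity) -/
def Divisor (q : ℕ) (G : ℤ[X]) : Prop :=
  1 ≤ q ∧ Squarefree (G.map (Int.castRingHom ℚ)) ∧ G.natDegree ≤ q ∧ q ≤ G.natDegree + 1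

/-- Vojta's inequality `∑_{v ∈ S ∪ {∞}} λ_{D,v}(x) + h_K(x) - d(x) ≤ ε h(x) + c` with `h_K = -2 h` -/
def Vojta (q : ℕ) (G : ℤ[X]) (S : Finset ℕ) (ε c : ℝ) (x : ℂ) (f : ℤ[X]) : Prop :=
  lambdaInf G q f + ∑ p ∈ S, lambdaP p G q f + (-2) * height f - logDisc x ≤ ε * height f + c

/-- The inequality holds for all but finitely many algebraic numbers `x` of degree `r` with the property
`Near` which are not in the support of `D`. -/
def AlmostAll (q : ℕ) (G : ℤ[X]) (S : Finset ℕ) (ε c : ℝ) (r : ℕ) (Near : ℂ → ℤ[X] → Prop) : Prop :=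
  {x : ℂ | ∃ f : ℤ[X], IsRoot r x f ∧ aeval x G ≠ 0 ∧ Near x f ∧ ¬ Vojta q G S ε c x f}.Finite

/-- The same for all divisors `D`, all finite sets `S` of primes, all `ε > 0` and all `c`. -/
def AllDivisors (r : ℕ) (Near : ℂ → ℤ[X] → Prop) : Prop :=
  ∀ (q : ℕ) (G : ℤ[X]) (S : Finset ℕ) (ε c : ℝ), Divisor q G → (∀ p ∈ S, p.Prime) → 0 < ε →
    AlmostAll q G S ε c r Near

/-- the exceptional numbers of degree `r` -/
def exc (q : ℕ) (G : ℤ[X]) (S : Finset ℕ) (ε c : ℝ) (r : ℕ) : Set ℂ :=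
  {x | ∃ f : ℤ[X], IsRoot r x f ∧ aeval x G ≠ 0 ∧ ¬ Vojta q G S ε c x f}

lemma sparse {q : ℕ} {G : ℤ[X]} {S : Finset ℕ} {ε : ℝ} (c : ℝ) {r : ℕ} (hr : 2 ≤ r)
    (hG : Divisor q G) (hS : ∀ p ∈ S, p.Prime) (hε : 0 < ε) :
    Pool.Agent.U155.MV.G.Sparse r ((r : ℝ) * (2 * r - 2 - min ε 2) / (2 * (r + 1)))
      (exc q G S ε c r) := by
  intro δ hδ
  obtain ⟨h1, h2, h3, h4⟩ := hG
  obtain ⟨C, hC⟩ := Pool.Agent.Results.MP_651af7_nt.PointsOfAnyDegree.result r q hr h1 G h2 h3 h4 S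
    hS ε c δ hε hδ
  refine ⟨C, fun B hB => ?_⟩
  obtain ⟨T, hT, hT2⟩ := hC B hB
  refine ⟨T, ?_, ?_⟩
  · have e1 : (r : ℝ) * ((r : ℝ) * (2 * r - 2 - min ε 2) / (2 * (r + 1))) =
        (r : ℝ) ^ 2 * (2 * r - 2 - min ε 2) / (2 * (r + 1)) := by ring
    rw [e1]
    exact hT
  · rintro x ⟨g, ⟨hg, hgd, hgx⟩, hxG, hV⟩ f ⟨hf, hd, hfx⟩ hh
    by_contra hxT
    apply hV
    refine hT2 x g ⟨hg, hgd, hgx, ?_, hxG⟩ hxT
    have e := Pool.Agent.R337.UE.height_unique hg hf (by omega) (by omega) hgx hfx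
    have e2 : height g = Pool.Agent.W223.AC.MR.height g := rfl
    rw [e2, e]
    exact hh

lemma countable_poly : Countable ℤ[X] := by
  rw [← Cardinal.mk_le_aleph0_iff]
  exact Polynomial.cardinalMk_le_max.trans (by simp)

lemma ae_all5 {α : Type} [MeasurableSpace α] {μ : Measure α}
    {p : α → ℕ → ℕ → ℤ[X] → Finset ℕ → ℕ → Prop}
    (h : ∀ r q G S n, ∀ᵐ x ∂μ, p x r q G S n) : ∀ᵐ x ∂μ, ∀ r q G S n, p x r q G S n := by
  have := countable_poly
  rw [ae_all_iff]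
  intro r
  rw [ae_all_iff]
  intro q
  rw [ae_all_iff]
  intro G
  rw [ae_all_iff]
  intro S
  rw [ae_all_iff]
  intro n
  exact h r q G S n

lemma of_near {q : ℕ} {G : ℤ[X]} {S : Finset ℕ} {ε c : ℝ} {r : ℕ} {N : ℂ → ℤ[X] → Prop}
    (h : {x | x ∈ exc q G S ε c r ∧ ∃ f : ℤ[X], Pool.Agent.U155.MV.G.Rt r x f ∧ N x f}.Finite) :
    AlmostAll q G S ε c r N := by
  refine h.subset ?_
  rintro x ⟨f, hf, hG, hN, hV⟩
  exact ⟨⟨f, hf, hG, hV⟩, f, hf, hN⟩

lemma mono {q : ℕ} {G : ℤ[X]} {S : Finset ℕ} {ε c ε' c' : ℝ} {r : ℕ} {N : ℂ → ℤ[X] → Prop}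
    (hε : ε' ≤ ε) (hc : c' ≤ c) (h : AlmostAll q G S ε' c' r N) : AlmostAll q G S ε c r N := by
  refine h.subset ?_
  rintro x ⟨f, hf, hG, hN, hV⟩
  refine ⟨f, hf, hG, hN, fun h1 => hV ?_⟩
  have h0 : 0 ≤ height f := Pool.Agent.R337.UE.height_nonneg hf.1.ne_zero
  have h2 := mul_le_mul_of_nonneg_right hε h0
  unfold Vojta at h1 ⊢
  linarith

lemma expo_nonneg {r : ℕ} (hr : 2 ≤ r) (ε : ℝ) :
    0 ≤ (r : ℝ) * (2 * r - 2 - min ε 2) / (2 * (r + 1)) := by
  have h1 : (2 : ℝ) ≤ r := by exact_mod_cast hr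
  have h2 := min_le_right ε 2
  refine div_nonneg (mul_nonneg (by linarith) (by linarith)) (by linarith)

lemma expo_le {r : ℕ} {ε : ℝ} (hε : 0 < ε) :
    (r : ℝ) * (2 * r - 2 - min ε 2) / (2 * (r + 1)) ≤ (r : ℝ) * (r - 1) / (r + 1) := by
  have h1 : (0 : ℝ) ≤ r := Nat.cast_nonneg r
  have h2 : 0 < min ε 2 := lt_min hε two_pos
  rw [div_le_div_iff₀ (by linarith) (by linarith)]
  nlinarith [mul_nonneg h1 h2.le, mul_nonneg (mul_nonneg h1 h1) h2.le]

/-- countably many conditions imply all of them -/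
lemma all_of_countable {r : ℕ} {N : ℂ → ℤ[X] → Prop}
    (h : ∀ (q : ℕ) (G : ℤ[X]) (S : Finset ℕ) (n : ℕ), Divisor q G → (∀ p ∈ S, p.Prime) →
      AlmostAll q G S (1 / ((n : ℝ) + 1)) (-(n : ℝ)) r N) : AllDivisors r N := by
  intro q G S ε c hG hS hε
  obtain ⟨n1, h1⟩ := exists_nat_one_div_lt hε
  obtain ⟨n2, h2⟩ := exists_nat_ge (-c)
  have hn : ((max n1 n2 : ℕ) : ℝ) = max (n1 : ℝ) n2 := by push_cast; rfl
  refine mono ?_ ?_ (h q G S (max n1 n2) hG hS)
  · refine le_trans ?_ h1.le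
    rw [hn]
    have h3 : (0 : ℝ) ≤ n1 := Nat.cast_nonneg _
    exact one_div_le_one_div_of_le (by linarith) (by linarith [le_max_left (n1 : ℝ) n2])
  · rw [hn]
    linarith [le_max_right (n1 : ℝ) n2]

/-- **Vojta's inequality for all divisors of the line at the good algebraic approximations of almost
every number.**

(1) Let `r ≥ 2`, let `D` be a reduced divisor of degree `q` (given by `G`), `S` a finite set of primes,
`ε > 0`, `c` real, `Y` a metric space, `ι` any map from `ℂ` to `Y` and `w > 0`. For all `ξ ∈ Y` outside a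
set of Hausdorff dimension at most `r (2 r - 2 - min ε 2) / (2 (r + 1)) / w` all but finitely many
algebraic numbers `x` of degree `r` with `dist (ι x) ξ ≤ M(x) ^ (-w)`, outside `D`, satisfy
`∑_{v ∈ S ∪ {∞}} λ_{D,v}(x) + h_K(x) - d(x) ≤ ε h(x) + c`, `h_K = -2 h`.

(2) For almost every real number `ξ`, all `r ≥ 2`, all `w > r (r - 1) / (r + 1)`, all `D`, all `S`, all
`ε > 0` and all `c` this holds for all but finitely many algebraic numbers `x` of degree `r` with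
`|x - ξ| ≤ M(x) ^ (-w)`.

(3) The same for almost every complex number `ξ` and all `w > r (r - 1) / (r + 1) / 2`.

(4) Let `m ≥ 1` and let `ι` be any map from `ℂ` to `ℝ ^ m`. The same for almost every `ξ ∈ ℝ ^ m`, all
`w > r (r - 1) / (r + 1) / m` and the `x` of degree `r` with `|ι_i(x) - ξ_i| ≤ M(x) ^ (-w)` for all
`i`. -/
theorem result :
    (∀ r : ℕ, 2 ≤ r → ∀ (q : ℕ) (G : ℤ[X]) (S : Finset ℕ) (ε c : ℝ), Divisor q G →
      (∀ p ∈ S, p.Prime) → 0 < ε → ∀ (Y : Type) [MetricSpace Y] (ι : ℂ → Y) (w : ℝ), 0 < w →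
      ∃ Z : Set Y, dimH Z ≤
          ENNReal.ofReal ((r : ℝ) * (2 * r - 2 - min ε 2) / (2 * (r + 1)) / w) ∧
        ∀ ξ : Y, ξ ∉ Z → AlmostAll q G S ε c r (fun x f => dist (ι x) ξ ≤ mahler f ^ (-w))) ∧
    (∀ᵐ ξ : ℝ, ∀ r : ℕ, 2 ≤ r → ∀ w : ℝ, (r : ℝ) * (r - 1) / (r + 1) < w →
      AllDivisors r (fun x f => ‖x - (ξ : ℂ)‖ ≤ mahler f ^ (-w))) ∧
    (∀ᵐ ξ : ℂ, ∀ r : ℕ, 2 ≤ r → ∀ w : ℝ, (r : ℝ) * (r - 1) / (r + 1) / 2 < w →
      AllDivisors r (fun x f => ‖x - ξ‖ ≤ mahler f ^ (-w))) ∧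
    (∀ m : ℕ, 0 < m → ∀ ι : ℂ → Fin m → ℝ, ∀ᵐ ξ : Fin m → ℝ, ∀ r : ℕ, 2 ≤ r → ∀ w : ℝ,
      (r : ℝ) * (r - 1) / (r + 1) / m < w →
      AllDivisors r (fun x f => ∀ i, |ι x i - ξ i| ≤ mahler f ^ (-w))) := by
  have hpos : ∀ n : ℕ, (0 : ℝ) < 1 / ((n : ℝ) + 1) := fun n => by positivity
  refine ⟨?_, ?_, ?_, ?_⟩
  · intro r hr q G S ε c hG hS hε Y _ ι w hw
    obtain ⟨Z, hZ, hZ2⟩ := Pool.Agent.U155.MV.G.near_dim hr (expo_nonneg hr ε)
      (sparse c hr hG hS hε) ι hw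
    exact ⟨Z, hZ, fun ξ hξ => of_near (hZ2 ξ hξ)⟩
  · have key : ∀ (r q : ℕ) (G : ℤ[X]) (S : Finset ℕ) (n : ℕ), ∀ᵐ ξ : ℝ, 2 ≤ r → Divisor q G →
        (∀ p ∈ S, p.Prime) → ∀ w : ℝ, (r : ℝ) * (r - 1) / (r + 1) < w →
        AlmostAll q G S (1 / ((n : ℝ) + 1)) (-(n : ℝ)) r
          (fun x f => ‖x - (ξ : ℂ)‖ ≤ mahler f ^ (-w)) := by
      intro r q G S n
      by_cases h : 2 ≤ r ∧ Divisor q G ∧ ∀ p ∈ S, p.Prime
      · obtain ⟨hr, hG, hS⟩ := h
        filter_upwards [Pool.Agent.U155.MV.G.near_re hr (expo_nonneg hr _)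
          (sparse (-(n : ℝ)) hr hG hS (hpos n))] with ξ hξ _ _ _ w hw
        exact of_near (hξ w ((expo_le (hpos n)).trans_lt hw))
      · exact Filter.Eventually.of_forall fun ξ h1 h2 h3 => absurd ⟨h1, h2, h3⟩ h
    have key2 : ∀ᵐ ξ : ℝ, ∀ (r q : ℕ) (G : ℤ[X]) (S : Finset ℕ) (n : ℕ), 2 ≤ r → Divisor q G →
        (∀ p ∈ S, p.Prime) → ∀ w : ℝ, (r : ℝ) * (r - 1) / (r + 1) < w →
        AlmostAll q G S (1 / ((n : ℝ) + 1)) (-(n : ℝ)) r
          (fun x f => ‖x - (ξ : ℂ)‖ ≤ mahler f ^ (-w)) := by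
      exact ae_all5 key
    filter_upwards [key2] with ξ hξ r hr w hw
    exact all_of_countable fun q G S n hG hS => hξ r q G S n hr hG hS w hw
  · have key : ∀ (r q : ℕ) (G : ℤ[X]) (S : Finset ℕ) (n : ℕ), ∀ᵐ ξ : ℂ, 2 ≤ r → Divisor q G →
        (∀ p ∈ S, p.Prime) → ∀ w : ℝ, (r : ℝ) * (r - 1) / (r + 1) / 2 < w →
        AlmostAll q G S (1 / ((n : ℝ) + 1)) (-(n : ℝ)) r
          (fun x f => ‖x - ξ‖ ≤ mahler f ^ (-w)) := by
      intro r q G S n
      by_cases h : 2 ≤ r ∧ Divisor q G ∧ ∀ p ∈ S, p.Prime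
      · obtain ⟨hr, hG, hS⟩ := h
        filter_upwards [Pool.Agent.U155.MV.G.near_im hr (expo_nonneg hr _)
          (sparse (-(n : ℝ)) hr hG hS (hpos n))] with ξ hξ _ _ _ w hw
        refine of_near (hξ w (lt_of_le_of_lt ?_ hw))
        exact div_le_div_of_nonneg_right (expo_le (hpos n)) two_pos.le
      · exact Filter.Eventually.of_forall fun ξ h1 h2 h3 => absurd ⟨h1, h2, h3⟩ h
    have key2 : ∀ᵐ ξ : ℂ, ∀ (r q : ℕ) (G : ℤ[X]) (S : Finset ℕ) (n : ℕ), 2 ≤ r → Divisor q G →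
        (∀ p ∈ S, p.Prime) → ∀ w : ℝ, (r : ℝ) * (r - 1) / (r + 1) / 2 < w →
        AlmostAll q G S (1 / ((n : ℝ) + 1)) (-(n : ℝ)) r
          (fun x f => ‖x - ξ‖ ≤ mahler f ^ (-w)) := by
      exact ae_all5 key
    filter_upwards [key2] with ξ hξ r hr w hw
    exact all_of_countable fun q G S n hG hS => hξ r q G S n hr hG hS w hw
  · intro m hm ι
    have hm0 : (0 : ℝ) ≤ m := Nat.cast_nonneg m
    have key : ∀ (r q : ℕ) (G : ℤ[X]) (S : Finset ℕ) (n : ℕ), ∀ᵐ ξ : Fin m → ℝ, 2 ≤ r →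
        Divisor q G → (∀ p ∈ S, p.Prime) → ∀ w : ℝ, (r : ℝ) * (r - 1) / (r + 1) / m < w →
        AlmostAll q G S (1 / ((n : ℝ) + 1)) (-(n : ℝ)) r
          (fun x f => ∀ i, |ι x i - ξ i| ≤ mahler f ^ (-w)) := by
      intro r q G S n
      by_cases h : 2 ≤ r ∧ Divisor q G ∧ ∀ p ∈ S, p.Prime
      · obtain ⟨hr, hG, hS⟩ := h
        filter_upwards [Pool.Agent.U155.MV.G.near_ae hr (expo_nonneg hr _)
          (sparse (-(n : ℝ)) hr hG hS (hpos n)) hm ι] with ξ hξ _ _ _ w hw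
        refine of_near (hξ w (lt_of_le_of_lt ?_ hw))
        exact div_le_div_of_nonneg_right (expo_le (hpos n)) hm0
      · exact Filter.Eventually.of_forall fun ξ h1 h2 h3 => absurd ⟨h1, h2, h3⟩ h
    have key2 : ∀ᵐ ξ : Fin m → ℝ, ∀ (r q : ℕ) (G : ℤ[X]) (S : Finset ℕ) (n : ℕ), 2 ≤ r →
        Divisor q G → (∀ p ∈ S, p.Prime) → ∀ w : ℝ, (r : ℝ) * (r - 1) / (r + 1) / m < w →
        AlmostAll q G S (1 / ((n : ℝ) + 1)) (-(n : ℝ)) r
          (fun x f => ∀ i, |ι x i - ξ i| ≤ mahler f ^ (-w)) := by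
      exact ae_all5 key
    filter_upwards [key2] with ξ hξ r hr w hw
    exact all_of_countable fun q G S n hG hS => hξ r q G S n hr hG hS w hw

end Pool.Agent.Results.MP_71c16a_nt.MetricDivisors
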