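import Pool.Agent.S821.Laws2
import Pool.Agent.Results.MP_71c16a_nt.OneExceptionalSet

/-!
# Vojta's inequality with proximity for the algebraic points above the points with a radical near the values of arithmetic functions

Let `K` be a number field and `a_1, …, a_q` distinct elements of `K`, `q ≥ 3`. For an element `x` of `K`, different from the `a_j`,
of whatever height, let the radical of `x` be `exp` of the truncated counting function of `x` with respect to
`[a_1] + … + [a_q]`, that is the product of the norms of the primes of `K` at which `x` and some `a_j` have the same reduction (for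
`K = ℚ` and `0, 1, ∞` it is `rad (abc)`). The radical of a tuple `x = (x_1, …, x_m)` is the largest radical of the `x_i`.

There is a set `E` of tuples such that Vojta's inequality, with the proximity function of the divisor at all finite sets of places,
holds for all algebraic points of all products of curves over all number fields above the tuples outside `E` (starting theorem
`OneExceptionalSet`). Here: for almost all `l` NO tuple of `E` has a radical in
the window `|R - v| ≤ v ^ τ`, `τ < 1 - 2m/q + ν`, around the value `v` at `l` of Euler's function, of the sum of the divisors or of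
other arithmetic functions (also along the orbits of Euler's function, and for compositions of additive functions); and so Vojta's
inequality holds for ALL points above ALL tuples with a radical in such a window, of whatever height. These windows are long enough
to contain radicals of tuples; the windows with `τ < 1 - 2m/q` contain no radicals of tuples at all, for almost all `l`. More
generally for windows around `G v`, for instance `α v ^ d`. The values form thin sets and are taken with very large multiplicities,
and so this does not follow from the number of the tuples in `E`.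
-/

set_option autoImplicit false

open Finset Filter

namespace Pool.Agent.Results.MP_71c16a_nt.RadicalsNearValues

open Polynomial IsDedekindDomain NumberField
open Pool.Agent.N733.TG (LM Expanding)
open Pool.Agent.N375.AV (PD)
open Pool.Agent.S821.Laws (Three three_set)
open Pool.Agent.Results.MP_71c16a_nt.OneExceptionalSet (coord height counting logDisc degree Tuples
  proximity)

/-- the radical of a tuple: the largest of the numbers `exp (counting a (x i))`, `counting a` the truncated counting function of
`[a_1] + … + [a_q]` -/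
noncomputable def radical {K : Type} [Field K] [NumberField K] {q m : ℕ} (a : Fin q → K) (x : Fin m → K) : ℝ :=
  ⨆ i, Real.exp (counting a (x i))

/-- no tuple in `E`, with coordinates different from the `a_j`, of whatever height, has a radical `R` with `|R - x| ≤ v ^ τ` -/
def Avoids {K : Type} [Field K] [NumberField K] {q m : ℕ} (a : Fin q → K) (E : Set (Fin m → K)) (τ : ℝ) (v : ℕ) (x : ℝ) : Prop :=
  ∀ t ∈ E, (∀ i j, t i ≠ a j) → ¬ |radical a t - x| ≤ (v : ℝ) ^ τ

theorem radical_le {K : Type} [Field K] [NumberField K] {q m : ℕ} (hm : 0 < m) (a : Fin q → K) (t : Fin m → K) {X : ℝ}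
    (hX : 1 ≤ X) : radical a t ≤ X ↔ ∀ i, counting a (t i) ≤ Real.log X := by
  have : Nonempty (Fin m) := ⟨⟨0, hm⟩⟩
  unfold radical
  rw [ciSup_le_iff (Set.finite_range _).bddAbove]
  exact forall_congr' fun i => (Real.le_log_iff_exp_le (by linarith)).symm

/-- **Vojta's inequality near the values of arithmetic functions.** Let `K` be a number field, `a_1, …, a_q` distinct elements of
`K`, `q ≥ 3`, and `m ≥ 1`, `G` expanding of degree `d` and `τ ≥ 0`. (1) If `d (2m/q) + τ < 1`, then no tuple of elements of `K`
different from the `a_j`, of whatever height, has a radical `R` with `|R - G v| ≤ v ^ τ`, in the sense of the three laws for the values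
`v` of arithmetic functions. (2) For every `κ > 0` there are a set `E ⊆ K ^ m` and `ν > 0` such that, if `d (2m/q - ν) + τ < 1`, no
tuple in `E` has a radical `R` with `|R - G v| ≤ v ^ τ`, in the same sense, and such that the following holds for all number fields
`k` containing `K`. For `i = 1, …, m` let `A_i` be a Dedekind domain, finite over `k[t]` and containing it (the ring of functions of a
smooth affine curve over `k` which is finite over the `t`-line), of rank `N_i`, and let `y_{i j 0} = t - a_j, y_{i j 1}, …` be elements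
of the radical of the ideal `(t - a_j)` of `A_i`, for example generators. Let `Z` be a set of pairs `(i, l)` with `i < l`. There is a
constant `c` such that for all tuples `x`, `x_i ≠ a_j`, which are not in `E`, all points `P` of the product of the curves with
`t_i(P) = x_i`, all number fields `L ⊇ k` over which `P` is defined and all finite sets `S` of rational primes satisfy
`m_S(F, P) + ∑_i (q - (∑_j dim (A_i / (y_{i j 0}, y_{i j 1}, …))) / N_i - κ) h(x_i) ≤ d(L) + ∑_{p ∈ S} log p + c`. (3) Examples of such functions. -/
theorem result :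
    (∀ (K : Type) [Field K] [NumberField K] (q : ℕ) (_ : 3 ≤ q) (a : Fin q → K) (_ : Function.Injective a) (m : ℕ) (_ : 0 < m),
      (∀ (G : ℕ → ℝ) (d : ℝ), Expanding G d → ∀ τ : ℝ, 0 ≤ τ → d * (2 * m / (q : ℝ)) + τ < 1 →
        Three (Avoids (m := m) a Set.univ τ) G) ∧
      ∀ κ : ℝ, 0 < κ → ∃ E : Set (Fin m → K),
        (∃ ν : ℝ, 0 < ν ∧ ∀ (G : ℕ → ℝ) (d : ℝ), Expanding G d → ∀ τ : ℝ, 0 ≤ τ → d * (2 * m / (q : ℝ) - ν) + τ < 1 →
          Three (Avoids a E τ) G) ∧
        ∀ (k : Type) [Field k] [NumberField k] [Algebra K k] (A : Fin m → Type)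
          [∀ i, CommRing (A i)] [∀ i, IsDedekindDomain (A i)] [∀ i, Algebra k (A i)]
          [∀ i, Algebra k[X] (A i)] [∀ i, IsScalarTower k k[X] (A i)]
          [∀ i, Module.Finite k[X] (A i)] [∀ i, FaithfulSMul k[X] (A i)]
          (u : Fin m → Fin q → ℕ) (y : ∀ i j, Fin (u i j + 1) → A i),
          (∀ i j, y i j 0 = coord k (A i) - algebraMap k (A i) (algebraMap K k (a j))) →
          (∀ i j l, y i j l ∈
            (Ideal.span {coord k (A i) - algebraMap k (A i) (algebraMap K k (a j))}).radical) →
          ∀ Z : Finset (Fin m × Fin m), (∀ p ∈ Z, p.1 < p.2) → ∃ c : ℝ,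
            ∀ x : Fin m → K, x ∉ E → (∀ i j, x i ≠ a j) →
            ∀ (L : Type) [Field L] [NumberField L] [Algebra K L] [Algebra k L]
              [IsScalarTower K k L] (φ : ∀ i, A i →ₐ[k] L),
              (∀ i, φ i (coord k (A i)) = algebraMap K L (x i)) →
              ∀ S : Finset ℕ, (∀ p ∈ S, p.Prime) →
                proximity S u y Z φ + ∑ i, (degree k (y i) - κ) * height (x i) ≤
                  logDisc L + ∑ p ∈ S, Real.log p + c) ∧
    (LM (fun m => m) ∧ LM Nat.totient ∧ LM (fun m => ∑ d ∈ m.divisors, d)) ∧
    ((∀ f : ℕ → ℕ, (∀ a b : ℕ, Nat.Coprime a b → f (a * b) = f a + f b) →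
      (∃ C : ℕ, ∀ q j : ℕ, q.Prime → 1 ≤ j → f (q ^ j) ≤ C * q ^ j) →
      (∃ P : ℕ, ∀ p q : ℕ, p.Prime → q.Prime → P ≤ p → P ≤ q → f p = f q → p = q) → PD f) ∧
      PD (fun n => n.primeFactors.sup id) ∧ PD (fun n => sInf {k : ℕ | n ∣ k.factorial})) ∧
    ∀ α d : ℝ, 0 < α → 1 ≤ d → Expanding (fun v => α * (v : ℝ) ^ d) d := by
  refine ⟨fun K _ _ q hq a ha m hm => ?_, Pool.Agent.S821.Laws.examples⟩
  obtain ⟨h1, h2⟩ := Pool.Agent.Results.MP_71c16a_nt.OneExceptionalSet.result K q hq a ha m hm
  have hq0 : (0 : ℝ) < q := by
    have : 0 < q := by omega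
    exact_mod_cast this
  have hm0 : (0 : ℝ) < m := by exact_mod_cast hm
  have hs : (0 : ℝ) < 2 * m / (q : ℝ) := by positivity
  refine ⟨fun G d hG τ hτ h3 => ?_, fun κ hκ => ?_⟩
  · refine (three_set {t : Fin m → K | ∀ i j, t i ≠ a j} (radical a) (s := 2 * m / (q : ℝ)) hs.le (fun ε hε => ?_) hG hτ
      h3).mono fun v x hv t _ ht => hv t ht
    obtain ⟨⟨C, hC⟩, -⟩ := h1 ε hε
    refine ⟨C, fun X hX => ?_⟩
    have e1 : {t : Fin m → K | t ∈ {t : Fin m → K | ∀ i j, t i ≠ a j} ∧ radical a t ≤ X} = Tuples m a X := by
      ext t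
      simp only [Set.mem_ofPred_eq, radical_le hm a t hX, Tuples]
      exact ⟨fun h i => ⟨h.1 i, h.2 i⟩, fun h => ⟨fun i => (h i).1, fun i => (h i).2⟩⟩
    rw [e1]
    exact hC X hX
  · obtain ⟨E, ⟨ν, C, hν, hC, h4⟩, -, h5⟩ := h2 κ hκ
    refine ⟨E, ⟨min ν (2 * m / (q : ℝ)), lt_min hν hs, fun G d hG τ hτ h3 => ?_⟩, h5⟩
    have hle : 2 * m / (q : ℝ) - ν ≤ 2 * m / (q : ℝ) - min ν (2 * m / (q : ℝ)) := by
      have := min_le_left ν (2 * m / (q : ℝ))
      linarith
    refine (three_set {t : Fin m → K | t ∈ E ∧ ∀ i j, t i ≠ a j} (radical a) (s := 2 * m / (q : ℝ) - min ν (2 * m / (q : ℝ)))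
      (by have := min_le_right ν (2 * m / (q : ℝ)); linarith) (fun ε hε => ?_) hG hτ
      h3).mono fun v x hv t ht1 ht2 => hv t ⟨ht1, ht2⟩
    refine ⟨C, fun X hX => ?_⟩
    have e1 : {t : Fin m → K | t ∈ {t : Fin m → K | t ∈ E ∧ ∀ i j, t i ≠ a j} ∧ radical a t ≤ X} = E ∩ Tuples m a X := by
      ext t
      simp only [Set.mem_ofPred_eq, radical_le hm a t hX, Tuples, Set.mem_inter_iff]
      exact ⟨fun h => ⟨h.1.1, fun i => ⟨h.1.2 i, h.2 i⟩⟩, fun h => ⟨⟨h.1, fun i => (h.2 i).1⟩, fun i => (h.2 i).2⟩⟩
    rw [e1]
    obtain ⟨⟨C1, hC1⟩, -⟩ := h1 1 one_pos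
    refine ⟨((hC1 X hX).1).subset Set.inter_subset_right, (h4 X hX).trans ?_⟩
    exact mul_le_mul_of_nonneg_left (Real.rpow_le_rpow_of_exponent_le hX (by linarith)) hC.le

end Pool.Agent.Results.MP_71c16a_nt.RadicalsNearValues
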